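import Pool.Agent.Helper4.PC.Base
import Pool.Agent.Helper4.PC.St.LL
import Pool.Agent.Helper4.PC.St.RO
import Pool.Agent.Helper4.PC.St.FI
import Pool.Agent.Helper4.PC.St.M2

namespace Pool.Agent.Helper4.PC

open Finset

variable {V : Type} [Fintype V] [DecidableEq V]

/-- the ball of radius three around `v` (through the neighbours) -/
def b3 (N : V → Finset V) (v : V) : Finset V :=
  N v ∪ (N v).biUnion N ∪ ((N v).biUnion N).biUnion N

theorem mem_b3_1 {N : V → Finset V} {v u : V} (hu : u ∈ N v) : u ∈ b3 N v := by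
  unfold b3; simp [hu]

theorem mem_b3_2 {N : V → Finset V} {v u w : V} (hu : u ∈ N v) (hw : w ∈ N u) : w ∈ b3 N v := by
  unfold b3
  rw [mem_union, mem_union]
  exact Or.inl (Or.inr (mem_biUnion.mpr ⟨u, hu, hw⟩))

theorem mem_b3_3 {N : V → Finset V} {v u w y : V} (hu : u ∈ N v) (hw : w ∈ N u) (hy : y ∈ N w) :
    y ∈ b3 N v := by
  unfold b3
  rw [mem_union]
  exact Or.inr (mem_biUnion.mpr ⟨w, mem_biUnion.mpr ⟨u, hu, hw⟩, hy⟩)

theorem mem_b3 {N : V → Finset V} {v y : V} (h : y ∈ b3 N v) :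
    y ∈ N v ∨ (∃ u ∈ N v, y ∈ N u) ∨ ∃ u ∈ N v, ∃ w ∈ N u, y ∈ N w := by
  unfold b3 at h
  rw [mem_union, mem_union] at h
  rcases h with (h | h) | h
  · exact Or.inl h
  · exact Or.inr (Or.inl (mem_biUnion.mp h))
  · obtain ⟨w, hw, hy⟩ := mem_biUnion.mp h
    obtain ⟨u, hu, hw'⟩ := mem_biUnion.mp hw
    exact Or.inr (Or.inr ⟨u, hu, w, hw', hy⟩)

theorem hball_aux {N : V → Finset V} (hG : Gr N) (v x : V) (hx : x ∉ (b3 N v).biUnion N) :
    ∀ y ∈ N x, y ∉ (↑(b3 N v) : Set V) := by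
  intro y hy hy'
  exact hx (mem_biUnion.mpr ⟨y, mem_coe.mp hy', hG.symm _ _ hy⟩)

/-- the ball `b3` has at most `a + a b + a b c` elements -/
theorem card_b3 {N : V → Finset V} {v : V} {a b c : ℕ} (ha : #(N v) ≤ a)
    (hb : ∀ u ∈ N v, #(N u) ≤ b) (hc : ∀ u ∈ N v, ∀ w ∈ N u, #(N w) ≤ c) :
    #(b3 N v) ≤ a + a * b + a * b * c := by
  have h1 : #((N v).biUnion N) ≤ a * b :=
    (card_biUnion_le_card_mul _ _ _ hb).trans (Nat.mul_le_mul_right _ ha)
  have h2 : #(((N v).biUnion N).biUnion N) ≤ a * b * c := by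
    refine (card_biUnion_le_card_mul _ _ c ?_).trans (Nat.mul_le_mul_right _ h1)
    intro w hw
    obtain ⟨u, hu, hw'⟩ := mem_biUnion.mp hw
    exact hc u hu w hw'
  unfold b3
  calc _ ≤ #(N v ∪ (N v).biUnion N) + #(((N v).biUnion N).biUnion N) := card_union_le _ _
    _ ≤ (#(N v) + #((N v).biUnion N)) + #(((N v).biUnion N).biUnion N) :=
        Nat.add_le_add_right (card_union_le _ _) _
    _ ≤ _ := by omega

theorem mainA (ε : ℝ) (hε : 0 < ε) : ∃ δ0 : ℕ, ∀ (V : Type) [Fintype V] [DecidableEq V]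
    (N : V → Finset V) (L : V → Finset ℕ), Gr N → (∀ v, δ0 ≤ #(N v)) →
    (∀ v, ∀ u ∈ N v, (1 / 2 + ε) * #(N v) ≤ (#(N u) : ℝ)) → (∀ x, #(N x) + 1 ≤ #(L x)) →
    ∃ c : V → ℕ, (∀ v, c v ∈ L v) ∧ (∀ v, ∀ u ∈ N v, c u ≠ c v) ∧
      ∀ v, ∃ u ∈ N v, ∀ w ∈ N v, c w = c u → w = u := by
  set κ : ℕ := max 1 ⌈2 / ε⌉₊ with hκ
  have hκ1 : 1 ≤ κ := le_max_left _ _
  have hκε : 2 ≤ κ * ε := by
    have h1 : 2 / ε ≤ κ := (Nat.le_ceil _).trans (by exact_mod_cast le_max_right _ _)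
    rwa [div_le_iff₀ hε] at h1
  obtain ⟨d0, hd0⟩ := local_lemma κ hκ1
  refine ⟨max d0 20000, ?_⟩
  intro V _ _ N L hG hdeg hrat hL
  have hdd : ∀ v, 20000 ≤ #(N v) := fun v => (le_max_right _ _).trans (hdeg v)
  -- degrees of adjacent vertices
  have hhalf : ∀ v, ∀ u ∈ N v, #(N v) ≤ 2 * #(N u) := by
    intro v u hu
    have h1 := hrat v u hu
    have h2 : (0 : ℝ) ≤ #(N v) := by positivity
    have h3 : (#(N v) : ℝ) ≤ 2 * #(N u) := by nlinarith
    exact_mod_cast h3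
  have hdbl : ∀ v, ∀ u ∈ N v, #(N u) ≤ 2 * #(N v) := fun v u hu => hhalf u v (hG.symm _ _ hu)
  obtain ⟨φ, hφ, hgood⟩ := rosenfeld (N := N) (L := L) univ
    (fun x => 1 / (32 * (#(N x) : ℝ) ^ 6)) (fun x => by positivity)
    (fun x => by
      have h1 : (1 : ℝ) ≤ #(N x) := by exact_mod_cast (by have := hdd x; omega : 1 ≤ #(N x))
      have h2 : (1 : ℝ) ≤ (#(N x) : ℝ) ^ 6 := one_le_pow₀ h1
      rw [div_le_div_iff₀ (by positivity) (by norm_num)]
      linarith)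
    (fun v => (b3 N v).biUnion N) (fun v => ↑(b3 N v))
    (fun v _ => by
      -- the sum over the ball
      have hv := hdd v
      set d := #(N v) with hd
      have hb : ∀ u ∈ N v, #(N u) ≤ 2 * d := hdbl v
      have hc : ∀ u ∈ N v, ∀ w ∈ N u, #(N w) ≤ 4 * d := fun u hu w hw => by
        have := hdbl u w hw; have := hb u hu; omega
      have hcard : #(b3 N v) ≤ d + d * (2 * d) + d * (2 * d) * (4 * d) := card_b3 le_rfl hb hc
      have h8 : ∀ y ∈ b3 N v, #(N y) ≤ 8 * d := by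
        intro y hy
        rcases mem_b3 hy with h | ⟨u, hu, h⟩ | ⟨u, hu, w, hw, h⟩
        · have := hb y h; omega
        · have := hc u hu y h; omega
        · have := hdbl w y h; have := hc u hu w hw; omega
      have h8' : ∀ y ∈ b3 N v, d ≤ 8 * #(N y) := by
        intro y hy
        rcases mem_b3 hy with h | ⟨u, hu, h⟩ | ⟨u, hu, w, hw, h⟩
        · have := hhalf v y h; omega
        · have := hhalf v u hu; have := hhalf u y h; omega
        · have := hhalf v u hu; have := hhalf u w hw; have := hhalf w y h; omega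
      have hB4 : #((b3 N v).biUnion N) ≤ (d + d * (2 * d) + d * (2 * d) * (4 * d)) * (8 * d) :=
        (card_biUnion_le_card_mul _ _ _ h8).trans (Nat.mul_le_mul_right _ hcard)
      have hB4' : (#((b3 N v).biUnion N) : ℝ) ≤ 88 * (d : ℝ) ^ 4 := by
        have h1 : (#((b3 N v).biUnion N) : ℝ) ≤
            ((d : ℝ) + d * (2 * d) + d * (2 * d) * (4 * d)) * (8 * d) := by exact_mod_cast hB4
        have hd1 : (1 : ℝ) ≤ d := by exact_mod_cast (by omega : 1 ≤ d)
        have h2 : (d : ℝ) ^ 2 ≤ (d : ℝ) ^ 4 := pow_le_pow_right₀ hd1 (by norm_num)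
        have h3 : (d : ℝ) ^ 3 ≤ (d : ℝ) ^ 4 := pow_le_pow_right₀ hd1 (by norm_num)
        nlinarith
      have hp : ∀ x ∈ (b3 N v).biUnion N,
          1 / (32 * (#(N x) : ℝ) ^ 6) ≤ 16 ^ 6 / (32 * (d : ℝ) ^ 6) := by
        intro x hx
        obtain ⟨y, hy, hxy⟩ := mem_biUnion.mp hx
        have h1 : d ≤ 16 * #(N x) := by
          have := h8' y hy; have := hhalf y x hxy; omega
        have h2 : (d : ℝ) ≤ 16 * #(N x) := by exact_mod_cast h1
        have hx0 : (0 : ℝ) < #(N x) := by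
          exact_mod_cast (by have := hdd x; omega : 0 < #(N x))
        have hd0 : (0 : ℝ) < d := by exact_mod_cast (by omega : 0 < d)
        have h3 : (d : ℝ) ^ 6 ≤ (16 * #(N x)) ^ 6 := pow_le_pow_left₀ hd0.le h2 6
        rw [div_le_div_iff₀ (by positivity) (by positivity)]
        rw [mul_pow] at h3
        nlinarith
      calc ∑ x ∈ (b3 N v).biUnion N, 1 / (32 * (#(N x) : ℝ) ^ 6)
          ≤ ∑ _x ∈ (b3 N v).biUnion N, 16 ^ 6 / (32 * (d : ℝ) ^ 6) := sum_le_sum hp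
        _ = #((b3 N v).biUnion N) * (16 ^ 6 / (32 * (d : ℝ) ^ 6)) := by
            rw [sum_const, nsmul_eq_mul]
        _ ≤ 88 * (d : ℝ) ^ 4 * (16 ^ 6 / (32 * (d : ℝ) ^ 6)) :=
            mul_le_mul_of_nonneg_right hB4' (by positivity)
        _ ≤ 1 / 4 := by
            have hd0 : (20000 : ℝ) ≤ d := by exact_mod_cast hv
            have hd0' : (0 : ℝ) < d := by linarith
            have e : 88 * (d : ℝ) ^ 4 * (16 ^ 6 / (32 * (d : ℝ) ^ 6)) =
                (88 * 16 ^ 6 / 32) / (d : ℝ) ^ 2 := by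
              field_simp
            rw [e, div_le_div_iff₀ (by positivity) (by norm_num)]
            nlinarith)
    (fun v _ x hx => hball_aux hG v x hx)
    (fun v _ F hF => by
      have hv := hdd v
      have h := hd0 V ℕ N L (↑(b3 N v)) F v (2 * #(N v)) hG hF hL
        ((le_max_left _ _).trans (hdeg v)) (by omega) (by
          have h1 : 2 ≤ #(N v) := by omega
          calc 2 * #(N v) ≤ #(N v) * #(N v) := Nat.mul_le_mul_right _ h1
            _ = #(N v) ^ 2 := by ring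
            _ ≤ #(N v) ^ 8 := Nat.pow_le_pow_right (by omega) (by norm_num))
        (fun u hu => ⟨hdbl v u hu, by
          have h1 := hrat v u hu
          have h2 : (#(N u) : ℝ) + 1 ≤ #(L u) := by exact_mod_cast hL u
          have h3 : (0 : ℝ) ≤ #(N v) := by positivity
          have h4 : (0 : ℝ) < κ := by exact_mod_cast hκ1
          have h5 : (κ : ℝ) * ((1 / 2 + ε) * #(N v)) ≤ κ * #(L u) :=
            mul_le_mul_of_nonneg_left (by linarith) h4.le
          have h6 : (2 : ℝ) * #(N v) ≤ κ * ε * #(N v) := mul_le_mul_of_nonneg_right hκε h3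
          have h7 : (2 * (2 * (#(N v) : ℝ)) + κ * #(N v)) ≤ 2 * κ * #(L u) := by nlinarith
          exact_mod_cast h7⟩)
        (fun u hu => by have := hhalf v u hu; have := hL u; omega)
        (fun u hu w hw => by
          have := hhalf v u hu; have := hhalf u w hw; have := hL w; omega)
        (fun u hu => mem_coe.mpr (mem_b3_1 hu))
        (fun u hu w hw => mem_coe.mpr (mem_b3_2 hu hw))
        (fun u hu w hw y hy => mem_coe.mpr (mem_b3_3 hu hw hy))
      have h0 : (0 : ℝ) < #(N v) := by exact_mod_cast (by omega : 0 < #(N v))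
      have h' : (#(F.filter fun φ => #(Uq N φ v) ≤ #(Bl N φ v)) : ℝ) * (2 * #(N v)) ^ 6 ≤ #F := by
        exact_mod_cast h
      have e : 1 / (32 * (#(N v) : ℝ) ^ 6) / 2 * #F = #F / (2 * (#(N v) : ℝ)) ^ 6 := by
        field_simp; ring
      show (_ : ℝ) ≤ 1 / (32 * (#(N v) : ℝ) ^ 6) / 2 * #F
      rw [e, le_div_iff₀ (by positivity)]
      exact h')
  obtain ⟨c, h1, h2, h3⟩ := fill hG hL univ φ hφ hgood
  exact ⟨c, h1, h2, fun v => h3 v (mem_univ v)⟩

theorem mainB : ∃ Δ0 : ℕ, ∀ (V : Type) [Fintype V] [DecidableEq V]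
    (N : V → Finset V) (L : V → Finset ℕ) (Δ : ℕ), Gr N → Δ0 ≤ Δ → (∀ v, #(N v) ≤ Δ) →
    (∀ v, #(N v) ≤ 1 ∨ 17 ≤ #(N v)) → (∀ x, Δ + 1 ≤ #(L x)) →
    ∃ c : V → ℕ, (∀ v, c v ∈ L v) ∧ (∀ v, ∀ u ∈ N v, c u ≠ c v) ∧
      ∀ v, (N v).Nonempty → ∃ u ∈ N v, ∀ w ∈ N v, c w = c u → w = u := by
  obtain ⟨d0, hd0⟩ := local_lemma 2 (by norm_num)
  obtain ⟨D1, hD1⟩ := small_local
  refine ⟨max (max (d0 ^ 8) D1) 4, ?_⟩
  intro V _ _ N L Δ hG hΔ hdeg hmin hL
  have hΔ1 : d0 ^ 8 ≤ Δ := (le_max_left _ _).trans ((le_max_left _ _).trans hΔ)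
  have hΔ2 : D1 ≤ Δ := (le_max_right _ _).trans ((le_max_left _ _).trans hΔ)
  have hΔ4 : 4 ≤ Δ := (le_max_right _ _).trans hΔ
  have hL' : ∀ x, #(N x) + 1 ≤ #(L x) := fun x => by have := hdeg x; have := hL x; omega
  have hΔr : (4 : ℝ) ≤ Δ := by exact_mod_cast hΔ4
  have hΔ0 : (0 : ℝ) < Δ := by linarith
  obtain ⟨φ, hφ, hgood⟩ := rosenfeld (N := N) (L := L) (univ.filter fun v => 17 ≤ #(N v))
    (fun _ => 1 / (8 * (Δ : ℝ) ^ 4)) (fun x => by positivity)
    (fun x => by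
      have h2 : (1 : ℝ) ≤ (Δ : ℝ) ^ 4 := one_le_pow₀ (by linarith)
      rw [div_le_div_iff₀ (by positivity) (by norm_num)]
      linarith)
    (fun v => (b3 N v).biUnion N) (fun v => ↑(b3 N v))
    (fun v _ => by
      have hcard : #(b3 N v) ≤ Δ + Δ * Δ + Δ * Δ * Δ :=
        card_b3 (hdeg v) (fun u _ => hdeg u) (fun u _ w _ => hdeg w)
      have hB4 : #((b3 N v).biUnion N) ≤ (Δ + Δ * Δ + Δ * Δ * Δ) * Δ :=
        (card_biUnion_le_card_mul _ _ _ fun y _ => hdeg y).trans (Nat.mul_le_mul_right _ hcard)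
      have hB4' : (#((b3 N v).biUnion N) : ℝ) ≤ 2 * (Δ : ℝ) ^ 4 := by
        have h1 : (#((b3 N v).biUnion N) : ℝ) ≤
            ((Δ : ℝ) + Δ * Δ + Δ * Δ * Δ) * Δ := by exact_mod_cast hB4
        nlinarith [pow_pos hΔ0 2, pow_pos hΔ0 3]
      rw [sum_const, nsmul_eq_mul]
      calc (#((b3 N v).biUnion N) : ℝ) * (1 / (8 * (Δ : ℝ) ^ 4))
          ≤ 2 * (Δ : ℝ) ^ 4 * (1 / (8 * (Δ : ℝ) ^ 4)) :=
            mul_le_mul_of_nonneg_right hB4' (by positivity)
        _ = 1 / 4 := by field_simp; norm_num)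
    (fun v _ x hx => hball_aux hG v x hx)
    (fun v hv F hF => by
      have hv17 : 17 ≤ #(N v) := (mem_filter.mp hv).2
      show (_ : ℝ) ≤ 1 / (8 * (Δ : ℝ) ^ 4) / 2 * #F
      have e : 1 / (8 * (Δ : ℝ) ^ 4) / 2 * #F = #F / (16 * (Δ : ℝ) ^ 4) := by
        field_simp; ring
      rw [e, le_div_iff₀ (by positivity)]
      by_cases hc : #(N v) ^ 8 ≤ Δ
      · have h := hD1 V ℕ N L (↑(b3 N v)) F v Δ hG hF hΔ2 hL' hv17 hc (fun u _ => hL u)
          (fun u hu => mem_coe.mpr (mem_b3_1 hu))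
          (fun u hu w hw => mem_coe.mpr (mem_b3_2 hu hw))
        exact_mod_cast h
      · have hd : d0 ≤ #(N v) := by
          by_contra hcon
          have h1 : #(N v) ≤ d0 := by omega
          have h2 : #(N v) ^ 8 ≤ d0 ^ 8 := Nat.pow_le_pow_left h1 8
          omega
        have h := hd0 V ℕ N L (↑(b3 N v)) F v Δ hG hF hL' hd (hdeg v) (by omega)
          (fun u _ => ⟨hdeg u, by have := hL u; have := hdeg v; omega⟩)
          (fun u _ => by have := hL u; have := hdeg v; omega)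
          (fun u _ w _ => by have := hL w; have := hdeg v; omega)
          (fun u hu => mem_coe.mpr (mem_b3_1 hu))
          (fun u hu w hw => mem_coe.mpr (mem_b3_2 hu hw))
          (fun u hu w hw y hy => mem_coe.mpr (mem_b3_3 hu hw hy))
        have h' : (#(F.filter fun φ => #(Uq N φ v) ≤ #(Bl N φ v)) : ℝ) * (Δ : ℝ) ^ 6 ≤ #F := by
          exact_mod_cast h
        refine le_trans (mul_le_mul_of_nonneg_left ?_ (by positivity)) h'
        have h16 : (16 : ℝ) ≤ (Δ : ℝ) ^ 2 := by nlinarith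
        calc 16 * (Δ : ℝ) ^ 4 ≤ (Δ : ℝ) ^ 2 * (Δ : ℝ) ^ 4 :=
              mul_le_mul_of_nonneg_right h16 (by positivity)
          _ = (Δ : ℝ) ^ 6 := by ring)
  obtain ⟨c, h1, h2, h3⟩ := fill hG hL' _ φ hφ hgood
  refine ⟨c, h1, h2, fun v hv => ?_⟩
  rcases hmin v with h | h
  · obtain ⟨u, hu⟩ := hv
    have hc1 : #(N v) = 1 := by
      have : 0 < #(N v) := card_pos.mpr ⟨u, hu⟩
      omega
    obtain ⟨a, ha⟩ := card_eq_one.mp hc1
    refine ⟨u, hu, fun w hw _ => ?_⟩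
    rw [ha, mem_singleton] at hu hw
    rw [hu, hw]
  · exact h3 v (mem_filter.mpr ⟨mem_univ v, h⟩)

end Pool.Agent.Helper4.PC
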