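import Mathlib

/-!
Base file of PROJECT PC (MP_cab741_co). Graphs are given by neighbour functions `N : V → Finset V`.
Partial colourings are maps `φ : V → Option C`, `none` = uncoloured (blank).
-/

namespace Pool.Agent.Helper4.PC

open Finset

variable {V C : Type} [Fintype V] [DecidableEq V] [DecidableEq C]

/-- symmetric irreflexive neighbour function -/
structure Gr (N : V → Finset V) : Prop where
  symm : ∀ u v, u ∈ N v → v ∈ N u
  irr : ∀ v, v ∉ N v

/-- all proper partial list colourings -/
def Om (N : V → Finset V) (L : V → Finset C) : Finset (V → Option C) :=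
  (Fintype.piFinset fun v => insertNone (L v)).filter
    fun φ => ∀ v, ∀ u ∈ N v, φ v = φ u → φ v = none

/-- colours of `L x` which do not occur on `N x` -/
def Av (N : V → Finset V) (L : V → Finset C) (φ : V → Option C) (x : V) : Finset C :=
  (L x).filter fun c => ∀ w ∈ N x, φ w ≠ some c

/-- neighbours of `v` whose colour occurs exactly once on `N v` -/
def Uq (N : V → Finset V) (φ : V → Option C) (v : V) : Finset V :=
  (N v).filter fun u => φ u ≠ none ∧ ∀ w ∈ N v, φ w = φ u → w = u

/-- blank neighbours -/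
def Bl (N : V → Finset V) (φ : V → Option C) (v : V) : Finset V :=
  (N v).filter fun u => φ u = none

/-- coloured neighbours of `v` whose colour is repeated on `N v` -/
def Nu (N : V → Finset V) (φ : V → Option C) (v : V) : Finset V :=
  (N v).filter fun u => φ u ≠ none ∧ u ∉ Uq N φ v

/-- the class of `u`: neighbours of `v` with the same colour as `u` -/
def Cls (N : V → Finset V) (φ : V → Option C) (v u : V) : Finset V :=
  (N v).filter fun w => φ w = φ u

/-- `F` is a family of proper partial colourings closed under changes inside `B` -/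
structure Clo (N : V → Finset V) (L : V → Finset C) (B : Set V) (F : Finset (V → Option C)) :
    Prop where
  sub : F ⊆ Om N L
  clo : ∀ φ ∈ F, ∀ ψ ∈ Om N L, (∀ x, x ∉ B → ψ x = φ x) → ψ ∈ F

/-- all vertices at distance one or two (through `N v`) have more than `r/2` available colours -/
abbrev NiceA (N : V → Finset V) (L : V → Finset C) (r : ℕ) (v : V) (φ : V → Option C) : Prop :=
  (∀ u ∈ N v, r < 2 * #(Av N L φ u)) ∧ ∀ u ∈ N v, ∀ w ∈ N u, r < 2 * #(Av N L φ w)

/-- moreover `v` has fewer than `b0` blank neighbours -/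
abbrev Nice (N : V → Finset V) (L : V → Finset C) (r b0 : ℕ) (v : V) (φ : V → Option C) : Prop :=
  NiceA N L r v φ ∧ #(Bl N φ v) < b0

/-- double counting with labels -/
theorem switch {α β γ δ : Type} (S : Finset α) (T : Finset γ)
    (mv : α → Finset β) (lb : γ → Finset δ) (f : α → β → γ) (g : α → β → δ) (F R : ℕ)
    (hT : ∀ a ∈ S, ∀ b ∈ mv a, f a b ∈ T)
    (hl : ∀ a ∈ S, ∀ b ∈ mv a, g a b ∈ lb (f a b))
    (inj : ∀ a ∈ S, ∀ b ∈ mv a, ∀ a' ∈ S, ∀ b' ∈ mv a', f a b = f a' b' → g a b = g a' b' →
      a = a' ∧ b = b')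
    (hF : ∀ a ∈ S, F ≤ #(mv a)) (hR : ∀ c ∈ T, #(lb c) ≤ R) : #S * F ≤ #T * R := by
  have h1 : #S * F ≤ #(S.sigma mv) := by
    rw [card_sigma]
    calc #S * F = ∑ _a ∈ S, F := by simp
      _ ≤ ∑ a ∈ S, #(mv a) := sum_le_sum hF
  have h2 : #(T.sigma lb) ≤ #T * R := by
    rw [card_sigma]
    calc ∑ c ∈ T, #(lb c) ≤ ∑ _c ∈ T, R := sum_le_sum hR
      _ = #T * R := by simp
  refine h1.trans (le_trans ?_ h2)
  refine card_le_card_of_injOn (fun p : (_ : α) × β => (⟨f p.1 p.2, g p.1 p.2⟩ : (_ : γ) × δ)) ?_ ?_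
  · rintro ⟨a, b⟩ hp
    have hp' := mem_sigma.mp (mem_coe.mp hp)
    simp only [coe_sigma, Set.mem_sigma_iff, mem_coe]
    exact ⟨hT a hp'.1 b hp'.2, hl a hp'.1 b hp'.2⟩
  · rintro ⟨a, b⟩ hp ⟨a', b'⟩ hp' h
    have hp1 := mem_sigma.mp (mem_coe.mp hp)
    have hp2 := mem_sigma.mp (mem_coe.mp hp')
    simp only [Sigma.mk.injEq, heq_eq_eq] at h
    obtain ⟨h1, h2⟩ := inj a hp1.1 b hp1.2 a' hp2.1 b' hp2.2 h.1 h.2
    subst h1; subst h2; rfl

theorem mem_Om {N : V → Finset V} {L : V → Finset C} {φ : V → Option C} :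
    φ ∈ Om N L ↔ (∀ v c, φ v = some c → c ∈ L v) ∧
      ∀ v, ∀ u ∈ N v, φ v = φ u → φ v = none := by
  unfold Om
  rw [mem_filter, Fintype.mem_piFinset]
  refine and_congr ⟨fun h v c hc => ?_, fun h v => ?_⟩ Iff.rfl
  · have := h v
    rw [mem_insertNone] at this
    exact this c hc
  · rw [mem_insertNone]
    exact fun c hc => h v c hc

theorem mem_Av {N : V → Finset V} {L : V → Finset C} {φ : V → Option C} {x : V} {c : C} :
    c ∈ Av N L φ x ↔ c ∈ L x ∧ ∀ w ∈ N x, φ w ≠ some c := by
  simp [Av]

/-- colouring `x` with an available colour -/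
theorem Om_update_some {N : V → Finset V} {L : V → Finset C} (hG : Gr N) {φ : V → Option C}
    (hφ : φ ∈ Om N L) {x : V} {c : C} (hc : c ∈ Av N L φ x) :
    Function.update φ x (some c) ∈ Om N L := by
  rw [mem_Om] at hφ ⊢
  rw [mem_Av] at hc
  refine ⟨fun v d hd => ?_, fun v u hu h => ?_⟩
  · by_cases hv : v = x
    · subst hv
      rw [Function.update_self] at hd
      rw [← Option.some.inj hd]; exact hc.1
    · rw [Function.update_of_ne hv] at hd
      exact hφ.1 v d hd
  · by_cases hv : v = x
    · subst hv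
      have hu' : u ≠ v := fun e => hG.irr v (e ▸ hu)
      rw [Function.update_self, Function.update_of_ne hu'] at h
      exact absurd h.symm (hc.2 u hu)
    · rw [Function.update_of_ne hv] at h ⊢
      by_cases hu' : u = x
      · subst hu'
        rw [Function.update_self] at h
        exact absurd h (hc.2 v (hG.symm _ _ hu))
      · rw [Function.update_of_ne hu'] at h
        exact hφ.2 v u hu h

/-- blanking `x` -/
theorem Om_update_none {N : V → Finset V} {L : V → Finset C} {φ : V → Option C}
    (hφ : φ ∈ Om N L) (x : V) : Function.update φ x none ∈ Om N L := by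
  rw [mem_Om] at hφ ⊢
  refine ⟨fun v d hd => ?_, fun v u hu h => ?_⟩
  · by_cases hv : v = x
    · subst hv
      simp at hd
    · rw [Function.update_of_ne hv] at hd
      exact hφ.1 v d hd
  · by_cases hv : v = x
    · subst hv
      simp
    · rw [Function.update_of_ne hv] at h ⊢
      by_cases hu' : u = x
      · subst hu'
        rw [Function.update_self] at h
        exact h
      · rw [Function.update_of_ne hu'] at h
        exact hφ.2 v u hu h

end Pool.Agent.Helper4.PC
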